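import Pool.Agent.Y778.SG.Stm

/-!
Every rational homology class of a group comes from a finitely presented group.
-/

set_option autoImplicit false

namespace Pool.Agent.Y824.SG

open Pool.Agent.Y483 Pool.Agent.Y778.SG Finsupp DirectSum

section

variable {X Y : Type*} {M N : Type*} [AddCommGroup M] [Module ℚ M] [AddCommGroup N] [Module ℚ N]

/-- Two maps which agree on the entries of the tuples of the support of a chain. -/
theorem mp_congr (n : ℕ) (f g : X → Y) (φ : M →ₗ[ℚ] N) (z : T n X M)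
    (h : ∀ x ∈ z.support, ∀ i, f (x i) = g (x i)) : mp n f φ z = mp n g φ z := by
  unfold mp
  rw [Finsupp.lsum_apply, Finsupp.lsum_apply]
  apply Finsupp.sum_congr
  intro x hx
  have e : f ∘ x = g ∘ x := funext (h x hx)
  rw [e]

open Classical in
/-- The entries of the tuples of the support of a chain. -/
noncomputable def ent {n : ℕ} (z : T n X M) : Finset X :=
  z.support.biUnion fun x => Finset.univ.image x

omit [Module ℚ M] in
theorem mem_ent {n : ℕ} {z : T n X M} {x : Fin n → X} (hx : x ∈ z.support) (i : Fin n) :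
    x i ∈ ent z := by
  classical
  exact Finset.mem_biUnion.2 ⟨x, hx, Finset.mem_image.2 ⟨i, Finset.mem_univ _, rfl⟩⟩

end

/-- A chain which is killed by a homomorphism is killed by imposing finitely many relations. -/
theorem kill {F0 G : Type} [Group F0] [Group G] (f0 : F0 →* G) (k : ℕ) (v : T k F0 ℚ)
    (hv : mp k f0 LinearMap.id v = 0) : ∃ R : Finset F0, (∀ r ∈ R, f0 r = 1) ∧
      ∀ (F : Type) [Group F] (q : F0 →* F), (∀ r ∈ R, q r = 1) →
        mp k q LinearMap.id v = 0 := by
  classical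
  refine ⟨((ent v ×ˢ ent v).filter fun p => f0 p.1 = f0 p.2).image fun p => p.1⁻¹ * p.2, ?_, ?_⟩
  · intro r hr
    obtain ⟨p, hp, rfl⟩ := Finset.mem_image.1 hr
    have h1 := (Finset.mem_filter.1 hp).2
    rw [map_mul, map_inv, h1, inv_mul_cancel]
  · intro F _ q hq
    let r : G → F := fun g => if h : ∃ a ∈ ent v, f0 a = g then q h.choose else 1
    have hr : ∀ a ∈ ent v, q a = r (f0 a) := by
      intro a ha
      have h : ∃ b ∈ ent v, f0 b = f0 a := ⟨a, ha, rfl⟩
      have h1 : r (f0 a) = q h.choose := dif_pos h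
      have h2 : q (h.choose⁻¹ * a) = 1 := by
        apply hq
        refine Finset.mem_image.2 ⟨(h.choose, a), ?_, rfl⟩
        exact Finset.mem_filter.2 ⟨Finset.mem_product.2 ⟨h.choose_spec.1, ha⟩,
          h.choose_spec.2⟩
      rw [h1]
      rw [map_mul, map_inv] at h2
      exact (inv_mul_eq_one.1 h2).symm
    have h3 : mp k q LinearMap.id v = mp k (r ∘ f0) LinearMap.id v :=
      mp_congr k q (r ∘ f0) LinearMap.id v fun x hx i => hr _ (mem_ent hx i)
    have h4 : mp k (r ∘ f0) LinearMap.id v =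
        mp k r LinearMap.id (mp k f0 LinearMap.id v) := by
      rw [mp_mp, LinearMap.id_comp]
    rw [h3, h4, hv, map_zero]

/-- A chain which becomes a cycle is a cycle after imposing finitely many relations. -/
theorem kill_cyc {F0 G : Type} [Group F0] [Group G] (f0 : F0 →* G) (n : ℕ) (w : T n F0 ℚ)
    (hw : Cyc (tQ G) n (mp n f0 LinearMap.id w)) : ∃ R : Finset F0, (∀ r ∈ R, f0 r = 1) ∧
      ∀ (F : Type) [Group F] (q : F0 →* F), (∀ r ∈ R, q r = 1) →
        Cyc (tQ F) n (mp n q LinearMap.id w) := by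
  cases n with
  | zero => exact ⟨∅, by simp, fun F _ q _ => Cyc.zero _ _⟩
  | succ k =>
    rw [cyc_succ, dd_mp (ρ := tQ F0) f0 LinearMap.id (fun _ _ => rfl)] at hw
    obtain ⟨R, h1, h2⟩ := kill f0 k _ hw
    refine ⟨R, h1, fun F _ q hq => ?_⟩
    rw [cyc_succ, dd_mp (ρ := tQ F0) q LinearMap.id (fun _ _ => rfl)]
    exact h2 F q hq

/-- Every homology class comes from a finitely presented group. -/
theorem hfp : S_HFP := by
  classical
  intro J G _ x
  choose z hz using fun j : J => exists_rpr (Rep.trivial ℚ G ℚ) j (x j)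
  set S : Finset G := (DFinsupp.support x).biUnion fun j => ent (z j) with hS
  let f0 : FreeGroup S →* G := FreeGroup.lift fun s : S => (s : G)
  let s : G → FreeGroup S := fun g => if h : g ∈ S then FreeGroup.of ⟨g, h⟩ else 1
  have hs : ∀ g ∈ S, f0 (s g) = g := by
    intro g hg
    have h1 : s g = FreeGroup.of ⟨g, hg⟩ := dif_pos hg
    rw [h1]
    exact FreeGroup.lift_apply_of
  let w : ∀ j : J, T (j : ℕ) (FreeGroup S) ℚ := fun j => mp (j : ℕ) s LinearMap.id (z j)
  have hw : ∀ j ∈ DFinsupp.support x, mp (j : ℕ) f0 LinearMap.id (w j) = z j := by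
    intro j hj
    have h1 : mp (j : ℕ) (f0 ∘ s) LinearMap.id (z j) = mp (j : ℕ) id LinearMap.id (z j) := by
      apply mp_congr
      intro y hy i
      exact hs _ (Finset.mem_biUnion.2 ⟨j, hj, mem_ent hy i⟩)
    change mp (j : ℕ) f0 LinearMap.id (mp (j : ℕ) s LinearMap.id (z j)) = z j
    rw [mp_mp, LinearMap.id_comp, h1, mp_id]
  have hR : ∀ j : J, ∃ R : Finset (FreeGroup S), (∀ r ∈ R, f0 r = 1) ∧
      (j ∈ DFinsupp.support x → ∀ (F : Type) [Group F] (q : FreeGroup S →* F),
        (∀ r ∈ R, q r = 1) → Cyc (tQ F) (j : ℕ) (mp (j : ℕ) q LinearMap.id (w j))) := by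
    intro j
    by_cases hj : j ∈ DFinsupp.support x
    · have h1 : Cyc (tQ G) (j : ℕ) (mp (j : ℕ) f0 LinearMap.id (w j)) := by
        rw [hw j hj]
        exact (hz j).cyc
      obtain ⟨R, h2, h3⟩ := kill_cyc f0 (j : ℕ) (w j) h1
      exact ⟨R, h2, fun _ => h3⟩
    · exact ⟨∅, by simp, fun h => absurd h hj⟩
  choose R hR1 hR2 using hR
  set RR : Finset (FreeGroup S) := (DFinsupp.support x).biUnion R with hRR
  let Nn : Subgroup (FreeGroup S) := Subgroup.normalClosure (RR : Set (FreeGroup S))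
  have hNf : Nn ≤ f0.ker := by
    apply Subgroup.normalClosure_le_normal
    intro r hr
    obtain ⟨j, _, hr⟩ := Finset.mem_biUnion.1 (Finset.mem_coe.1 hr)
    exact hR1 j r hr
  let q : FreeGroup S →* FreeGroup S ⧸ Nn := QuotientGroup.mk' Nn
  let f : FreeGroup S ⧸ Nn →* G := QuotientGroup.lift Nn f0 hNf
  have hq : ∀ j ∈ DFinsupp.support x, ∀ r ∈ R j, q r = 1 := by
    intro j hj r hr
    apply (QuotientGroup.eq_one_iff r).2
    exact Subgroup.subset_normalClosure (Finset.mem_coe.2 (Finset.mem_biUnion.2 ⟨j, hj, hr⟩))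
  have hfq : (f : FreeGroup S ⧸ Nn → G) ∘ q = f0 := by
    funext a
    rfl
  have hy : ∀ j : J, ∃ y : HQ j (FreeGroup S ⧸ Nn), j ∈ DFinsupp.support x →
      hqMap f j y = x j := by
    intro j
    by_cases hj : j ∈ DFinsupp.support x
    · obtain ⟨y, hy⟩ := exists_class (A := Rep.trivial ℚ (FreeGroup S ⧸ Nn) ℚ) (j : ℕ)
        (mp (j : ℕ) q LinearMap.id (w j)) (hR2 j hj _ q (hq j hj))
      refine ⟨y, fun _ => ?_⟩
      have h1 := (hy.hq f).sub (hz j)
      have h2 : mp (j : ℕ) f LinearMap.id (mp (j : ℕ) q LinearMap.id (w j)) = z j := by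
        rw [mp_mp, LinearMap.id_comp, hfq, hw j hj]
      rw [h2, sub_self] at h1
      rw [← sub_eq_zero, h1.eq_zero_iff]
      exact Submodule.zero_mem _
    · exact ⟨0, fun h => absurd h hj⟩
  choose y hy using hy
  refine ⟨FreeGroup S ⧸ Nn, inferInstance,
    Group.IsFinitelyPresented.quotient Nn ⟨RR, RR.finite_toSet, rfl⟩, f,
    ∑ j ∈ DFinsupp.support x, DirectSum.of (fun j : J => HQ j (FreeGroup S ⧸ Nn)) j (y j), ?_⟩
  rw [map_sum]
  conv_rhs => rw [← DirectSum.sum_support_of x]
  apply Finset.sum_congr rfl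
  intro j hj
  rw [hjMap_of, hy j hj]

end Pool.Agent.Y824.SG
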