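import Pool.Agent.Y778.SG.Univ
import Pool.Agent.Y824.SG.HFP

/-!
Free groups of countable rank have no rational homology in degrees at least two.
-/

set_option autoImplicit false

namespace Pool.Agent.Y824.SG

open Pool.Agent.Y483 Pool.Agent.Y110.KW Pool.Agent.Y778.SG Finsupp

/-- The free factor generated by the first generators. -/
def fA (n : ℕ) : Subgroup (FreeGroup (Fin (n + 1))) :=
  (FreeGroup.map (Fin.castSucc : Fin n → Fin (n + 1))).range

/-- The free factor generated by the last generator. -/
def fB (n : ℕ) : Subgroup (FreeGroup (Fin (n + 1))) :=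
  Subgroup.zpowers (FreeGroup.of (Fin.last n))

theorem mem_fA (n : ℕ) (i : Fin n) : FreeGroup.of i.castSucc ∈ fA n :=
  ⟨FreeGroup.of i, FreeGroup.map.of⟩

theorem mem_fB (n : ℕ) : FreeGroup.of (Fin.last n) ∈ fB n := Subgroup.mem_zpowers _

/-- A free group is the free product of these factors. -/
theorem amal_free (n : ℕ) : Amal (fA n) (fB n) ⊥ where
  le_left := bot_le
  le_right := bot_le
  gen := by
    rw [eq_top_iff, ← FreeGroup.closure_range_of, Subgroup.closure_le]
    rintro _ ⟨i, rfl⟩
    refine Fin.lastCases ?_ (fun i => ?_) i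
    · exact Subgroup.mem_sup_right (mem_fB n)
    · exact Subgroup.mem_sup_left (mem_fA n i)
  univ := by
    intro H _ f g _
    let h : FreeGroup (Fin (n + 1)) →* H := FreeGroup.lift fun i =>
      Fin.lastCases (motive := fun _ => H) (g ⟨_, mem_fB n⟩) (fun i => f ⟨_, mem_fA n i⟩) i
    refine ⟨h, ?_, ?_⟩
    · have h1 : h.comp (FreeGroup.map (Fin.castSucc : Fin n → Fin (n + 1))) =
          f.comp (FreeGroup.map (Fin.castSucc : Fin n → Fin (n + 1))).rangeRestrict := by
        apply FreeGroup.ext_hom
        intro i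
        rw [MonoidHom.comp_apply, FreeGroup.map.of, MonoidHom.comp_apply]
        have h2 : h (FreeGroup.of i.castSucc) = f ⟨_, mem_fA n i⟩ := by
          simp only [h, FreeGroup.lift_apply_of, Fin.lastCases_castSucc]
        rw [h2]
        congr 1
      rintro ⟨_, w, rfl⟩
      exact DFunLike.congr_fun h1 w
    · rintro ⟨_, k, rfl⟩
      have h2 : h (FreeGroup.of (Fin.last n)) = g ⟨_, mem_fB n⟩ := by
        simp only [h, FreeGroup.lift_apply_of, Fin.lastCases_last]
      change h (FreeGroup.of (Fin.last n) ^ k) = _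
      rw [map_zpow, h2, ← map_zpow]
      rfl
  retr := ⟨1, fun c => Subsingleton.elim _ _⟩

/-- Finitely generated free groups. -/
theorem noH_fin (n : ℕ) : NoH (FreeGroup (Fin n)) := by
  induction n with
  | zero => exact noH_of_subsingleton
  | succ n ih =>
    have hA : NoH (fA n) := noH_equiv (MonoidHom.ofInjective
      (FreeGroup.map_injective (Fin.castSucc_injective n))) ih
    have hB : NoH (fB n) := noH_zpowers _
    intro q hq x
    obtain ⟨a, b, hab⟩ := (amal_free n).mv_class q x
    rw [hab, hA q hq a, hB q hq b, map_zero, map_zero, add_zero]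

/-- The retraction to the free factor generated by the first `M` generators. -/
def eN (M : ℕ) : FreeGroup ℕ →* FreeGroup ℕ :=
  FreeGroup.lift fun i => if i < M then FreeGroup.of i else 1

/-- The retraction to the free group of rank `M`. -/
def rN (M : ℕ) : FreeGroup ℕ →* FreeGroup (Fin M) :=
  FreeGroup.lift fun i => if h : i < M then FreeGroup.of ⟨i, h⟩ else 1

theorem eN_eq (M : ℕ) : (FreeGroup.map (Fin.val : Fin M → ℕ)).comp (rN M) = eN M := by
  apply FreeGroup.ext_hom
  intro i
  rw [MonoidHom.comp_apply]
  simp only [rN, eN, FreeGroup.lift_apply_of]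
  split_ifs with h
  · exact FreeGroup.map.of
  · exact map_one _

theorem exists_level (g : FreeGroup ℕ) : ∃ N : ℕ, ∀ M, N ≤ M → eN M g = g := by
  induction g using FreeGroup.induction_on with
  | C1 => exact ⟨0, fun M _ => map_one _⟩
  | of i =>
    refine ⟨i + 1, fun M hM => ?_⟩
    simp only [eN, FreeGroup.lift_apply_of]
    rw [if_pos (by omega)]
  | inv_of i hi =>
    obtain ⟨N, hN⟩ := hi
    exact ⟨N, fun M hM => by rw [map_inv, hN M hM]⟩
  | mul a b ha hb =>
    obtain ⟨N, hN⟩ := ha
    obtain ⟨N', hN'⟩ := hb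
    exact ⟨max N N', fun M hM => by
      rw [map_mul, hN M (le_trans (le_max_left _ _) hM), hN' M (le_trans (le_max_right _ _) hM)]⟩

/-- The free group of countable rank has no rational homology in degrees at least two. -/
theorem noH_free : NoH (FreeGroup ℕ) := by
  intro q hq x
  obtain ⟨z, hz⟩ := exists_rpr (Rep.trivial ℚ (FreeGroup ℕ) ℚ) q x
  choose N hN using exists_level
  set M := (ent z).sup N with hM
  have h1 : mp q (eN M) LinearMap.id z = z := by
    have h2 := mp_congr q (eN M) id LinearMap.id z
      (fun y hy i => hN (y i) M (Finset.le_sup (mem_ent hy i)))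
    rw [h2]
    exact mp_id q z
  have h2 : hqMap (eN M) q x = x := by
    have h3 := (hz.hq (eN M)).sub hz
    rw [h1, sub_self] at h3
    rw [← sub_eq_zero]
    exact h3.eq_zero_iff.2 (Submodule.zero_mem _)
  rw [← h2, ← eN_eq, hqMap_comp, noH_fin M q hq (hqMap (rN M) q x), map_zero]

end Pool.Agent.Y824.SG
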